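import Pool.Agent.L5helper13.KM.Defs

/-! Leading monomials of a pair with the Keller condition. -/

set_option autoImplicit false

namespace Pool.Agent.L5helper13.KM

open MvPolynomial Finset

/-- the leading monomials for an additive weight -/
theorem special_lead (a b : Ex → ℂ) (h : Kel a b) (W : Ex → ℤ) (hW : ∀ m n, W (m + n) = W m + W n)
    (m1 m2 : Ex) (h1 : a m1 ≠ 0) (h2 : b m2 ≠ 0)
    (hm1 : ∀ m, a m ≠ 0 → m ≠ m1 → W m < W m1) (hm2 : ∀ m, b m ≠ 0 → m ≠ m2 → W m < W m2)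
    (hdet : (m1 0 : ℤ) * m2 1 - m1 1 * m2 0 ≠ 0) :
    m1 + m2 = Finsupp.single 0 1 + Finsupp.single 1 1 := by
  by_contra hne
  have e := h (m1 + m2)
  rw [if_neg hne] at e
  unfold Phi at e
  rw [Finset.sum_eq_single_of_mem (m1, m2) (by rw [HasAntidiagonal.mem_antidiagonal])] at e
  · simp only at e
    have h3 : ((m1 0 : ℂ) * (m2 1 : ℂ) - (m1 1 : ℂ) * (m2 0 : ℂ)) ≠ 0 := by exact_mod_cast hdet
    exact mul_ne_zero h3 (mul_ne_zero h1 h2) e
  · rintro ⟨p, q⟩ hpq hn
    rw [HasAntidiagonal.mem_antidiagonal] at hpq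
    simp only at hpq ⊢
    by_cases ha : a p = 0
    · rw [ha]; ring
    by_cases hb : b q = 0
    · rw [hb]; ring
    exfalso
    have e1 : W p + W q = W m1 + W m2 := by rw [← hW, ← hW, hpq]
    by_cases hp : p = m1
    · have hq : q ≠ m2 := fun hq => hn (by rw [hp, hq])
      have := hm2 q hb hq
      rw [hp] at e1; linarith
    · have := hm1 p ha hp
      by_cases hq : q = m2
      · rw [hq] at e1; linarith
      · have := hm2 q hb hq
        linarith

theorem special_inj (N t s σ : ℤ) (hσ : σ = 1 ∨ σ = -1) (ht : 0 < t) (m m' : Ex)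
    (hm : (m 1 : ℤ) < N) (hm' : (m' 1 : ℤ) < N)
    (h : N * (t * m 0 - s * m 1) + σ * m 1 = N * (t * m' 0 - s * m' 1) + σ * m' 1) : m = m' := by
  have p1 : (0 : ℤ) ≤ m 1 := by positivity
  have p2 : (0 : ℤ) ≤ m' 1 := by positivity
  obtain ⟨d, hd⟩ : ∃ d, d = (t * m 0 - s * m 1) - (t * m' 0 - s * m' 1) := ⟨_, rfl⟩
  have e1 : N * d = σ * (m' 1 - m 1) := by rw [hd]; linear_combination h
  have hd0 : d = 0 := by
    rcases lt_trichotomy d 0 with h0 | h0 | h0
    · exfalso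
      rcases hσ with rfl | rfl <;> nlinarith
    · exact h0
    · exfalso
      rcases hσ with rfl | rfl <;> nlinarith
  have e2 : (m 1 : ℤ) = m' 1 := by
    rw [hd0] at e1
    rcases hσ with rfl | rfl <;> linarith
  have e3 : (m 0 : ℤ) = m' 0 := by
    rw [hd0, e2] at hd
    have : t * ((m 0 : ℤ) - m' 0) = 0 := by linear_combination -hd
    rcases mul_eq_zero.1 this with h3 | h3
    · exact absurd h3 ht.ne'
    · linarith
  ext i
  fin_cases i
  · exact_mod_cast e3
  · exact_mod_cast e2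

theorem special_max (S : Finset Ex) (hS : S.Nonempty) (N t s σ : ℤ) (hσ : σ = 1 ∨ σ = -1)
    (ht : 0 < t) (hN : ∀ m ∈ S, (m 1 : ℤ) < N) :
    ∃ m ∈ S, ∀ m' ∈ S, m' ≠ m → N * (t * m' 0 - s * m' 1) + σ * m' 1 <
      N * (t * m 0 - s * m 1) + σ * m 1 := by
  obtain ⟨m, hm, hmax⟩ := S.exists_max_image
    (fun m : Ex => N * (t * m 0 - s * m 1) + σ * m 1) hS
  refine ⟨m, hm, fun m' hm' hne => lt_of_le_of_ne (hmax m' hm') fun he => hne ?_⟩
  exact special_inj N t s σ hσ ht m' m (hN m' hm') (hN m hm) he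

/-- KM2 (Special.lean) -/
theorem special (a b : Ex → ℂ) (ha : (Function.support a).Finite) (hb : (Function.support b).Finite)
    (h : Kel a b) (ha1 : a (Finsupp.single 0 1) = 1)
    (hap : ∀ e, a e ≠ 0 → e = Finsupp.single 0 1 ∨ (1 ≤ e 0 ∧ 1 ≤ e 1))
    (hbp : ∀ e, b e ≠ 0 → 1 ≤ e 1) :
    ∀ e, a e ≠ 0 → e = Finsupp.single 0 1 := by
  classical
  by_contra hcon
  push Not at hcon
  obtain ⟨e0, he0, hne0⟩ := hcon
  set A : Finset Ex := ha.toFinset with hA
  set B : Finset Ex := hb.toFinset with hB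
  have mA : ∀ m, m ∈ A ↔ a m ≠ 0 := fun m => by rw [hA, Set.Finite.mem_toFinset, Function.mem_support]
  have mB : ∀ m, m ∈ B ↔ b m ≠ 0 := fun m => by rw [hB, Set.Finite.mem_toFinset, Function.mem_support]
  have hAe : (A.erase (Finsupp.single 0 1)).Nonempty := ⟨e0, mem_erase.2 ⟨hne0, (mA _).2 he0⟩⟩
  obtain ⟨u, hu, humax⟩ := (A.erase (Finsupp.single 0 1)).exists_max_image
    (fun m : Ex => ((m 0 : ℚ) - 1) / m 1) hAe
  rw [mem_erase] at hu
  have hpos : ∀ m ∈ A, m ≠ Finsupp.single 0 1 → 1 ≤ m 0 ∧ 1 ≤ m 1 := fun m hm hne =>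
    (hap m ((mA m).1 hm)).resolve_left hne
  have hu1 := hpos u hu.2 hu.1
  -- the slopes
  obtain ⟨s, hs⟩ : ∃ s : ℤ, s = (u 0 : ℤ) - 1 := ⟨_, rfl⟩
  obtain ⟨t, ht⟩ : ∃ t : ℤ, t = (u 1 : ℤ) := ⟨_, rfl⟩
  have hu10 : (1 : ℤ) ≤ u 0 := by exact_mod_cast hu1.1
  have hu11 : (1 : ℤ) ≤ u 1 := by exact_mod_cast hu1.2
  have hs0 : 0 ≤ s := by rw [hs]; linarith
  have ht0 : 0 < t := by rw [ht]; linarith
  have hslope : ∀ m ∈ A, m ≠ Finsupp.single 0 1 → t * ((m 0 : ℤ) - 1) ≤ s * m 1 := by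
    intro m hm hne
    have h1 := humax m (mem_erase.2 ⟨hne, hm⟩)
    have h2 := hpos m hm hne
    have h3 : (0 : ℚ) < m 1 := by exact_mod_cast h2.2
    have h4 : (0 : ℚ) < u 1 := by exact_mod_cast hu1.2
    rw [div_le_div_iff₀ h3 h4] at h1
    have h5 : (((m 0 : ℤ) - 1) * (u 1 : ℤ) : ℤ) ≤ ((u 0 : ℤ) - 1) * (m 1 : ℤ) := by exact_mod_cast h1
    rw [hs, ht]
    linarith
  have s00 : ((Finsupp.single 0 1 : Ex) 0) = 1 := by simp
  have s01 : ((Finsupp.single 0 1 : Ex) 1) = 0 := by simp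
  have hwA : ∀ m ∈ A, t * (m 0 : ℤ) - s * m 1 ≤ t := by
    intro m hm
    by_cases hne : m = Finsupp.single 0 1
    · rw [hne, s00, s01]; push_cast; linarith
    · have := hslope m hm hne
      linarith
  -- a bound for the exponents
  obtain ⟨N, hN⟩ : ∃ N : ℤ, ∀ m ∈ A ∪ B, (m 1 : ℤ) < N := by
    refine ⟨(((A ∪ B).sup fun m => m 1) : ℕ) + 1, fun m hm => ?_⟩
    have := Finset.le_sup (f := fun m : Ex => m 1) hm
    have h2 : (m 1 : ℤ) ≤ (((A ∪ B).sup fun m => m 1 : ℕ) : ℤ) := by exact_mod_cast this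
    linarith
  have hNA : ∀ m ∈ A, (m 1 : ℤ) < N := fun m hm => hN m (mem_union_left _ hm)
  have hNB : ∀ m ∈ B, (m 1 : ℤ) < N := fun m hm => hN m (mem_union_right _ hm)
  have hN0 : 0 < N := by have := hNA u hu.2; linarith
  have hBne : B.Nonempty := by
    by_contra hc
    rw [not_nonempty_iff_eq_empty] at hc
    have h1 := h (Finsupp.single 0 1 + Finsupp.single 1 1)
    rw [if_pos rfl] at h1
    unfold Phi at h1
    rw [Finset.sum_eq_zero] at h1
    · exact zero_ne_one h1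
    · intro p _
      have : b p.2 = 0 := by
        by_contra hc2
        have := (mB p.2).2 hc2
        rw [hc] at this
        exact absurd this (notMem_empty _)
      rw [this]; ring
  have hWadd : ∀ (σ : ℤ) (m n : Ex), N * (t * ((m + n) 0 : ℕ) - s * ((m + n) 1 : ℕ)) + σ * ((m + n) 1 : ℕ) =
      (N * (t * m 0 - s * m 1) + σ * m 1) + (N * (t * n 0 - s * n 1) + σ * n 1) := by
    intro σ m n
    rw [Finsupp.add_apply, Finsupp.add_apply]
    push_cast
    ring
  have sum0 : ((Finsupp.single 0 1 + Finsupp.single 1 1 : Ex) 0) = 1 := by simp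
  have sum1 : ((Finsupp.single 0 1 + Finsupp.single 1 1 : Ex) 1) = 1 := by simp
  -- step 1
  obtain ⟨v, hv, hvmax⟩ := special_max B hBne N t s (-1) (Or.inr rfl) ht0 hNB
  have hv1 : (1 : ℤ) ≤ v 1 := by exact_mod_cast hbp v ((mB v).1 hv)
  have key1 := special_lead a b h (fun m => N * (t * m 0 - s * m 1) + (-1) * m 1) (hWadd (-1))
    (Finsupp.single 0 1) v (by rw [ha1]; exact one_ne_zero) ((mB v).1 hv)
    (by
      intro m hm hne
      have h1 := hwA m ((mA m).2 hm)
      have h2 := hpos m ((mA m).2 hm) hne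
      have h3 : (1 : ℤ) ≤ m 1 := by exact_mod_cast h2.2
      simp only [s00, s01]
      push_cast
      nlinarith)
    (fun m hm hne => hvmax m ((mB m).2 hm) hne)
    (by rw [s00, s01]; push_cast; linarith)
  have hv0' : v 0 = 0 := by
    have := DFunLike.congr_fun key1 0
    rw [Finsupp.add_apply, s00, sum0] at this
    omega
  have hv1' : v 1 = 1 := by
    have := DFunLike.congr_fun key1 1
    rw [Finsupp.add_apply, s01, sum1] at this
    omega
  have hwB : ∀ m ∈ B, t * (m 0 : ℤ) - s * m 1 ≤ -s := by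
    intro m hm
    by_cases hne : m = v
    · rw [hne, hv0', hv1']; push_cast; linarith
    · have h1 := hvmax m hm hne
      rw [hv0', hv1'] at h1
      push_cast at h1
      have h2 := hNB m hm
      by_contra hc
      push Not at hc
      have h3 : 1 ≤ t * (m 0 : ℤ) - s * m 1 + s := by linarith
      nlinarith
  -- step 2
  obtain ⟨p, hp, hpmax⟩ := special_max A ⟨u, hu.2⟩ N t s 1 (Or.inl rfl) ht0 hNA
  obtain ⟨q, hq, hqmax⟩ := special_max B hBne N t s 1 (Or.inl rfl) ht0 hNB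
  have hpw : t * (p 0 : ℤ) - s * p 1 = t ∧ (1 : ℤ) ≤ p 1 := by
    by_cases hne : u = p
    · rw [← hne]
      refine ⟨?_, hu11⟩
      rw [hs, ht]; ring
    · have h1 := hpmax u hu.2 hne
      have h2 : t * (u 0 : ℤ) - s * u 1 = t := by rw [hs, ht]; ring
      rw [h2] at h1
      have h3 := hwA p hp
      have h4 := hNA p hp
      have h5 : t * (p 0 : ℤ) - s * p 1 = t := by
        by_contra hc
        have h6 : t * (p 0 : ℤ) - s * p 1 ≤ t - 1 := by
          have := lt_of_le_of_ne h3 hc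
          linarith
        nlinarith
      refine ⟨h5, ?_⟩
      rw [h5] at h1
      linarith
  have hqw : t * (q 0 : ℤ) - s * q 1 = -s ∧ (1 : ℤ) ≤ q 1 := by
    have hq1 : (1 : ℤ) ≤ q 1 := by exact_mod_cast hbp q ((mB q).1 hq)
    refine ⟨?_, hq1⟩
    by_cases hne : v = q
    · rw [← hne, hv0', hv1']; push_cast; ring
    · have h1 := hqmax v hv hne
      rw [hv0', hv1'] at h1
      push_cast at h1
      have h3 := hwB q hq
      have h4 := hNB q hq
      by_contra hc
      have h6 : t * (q 0 : ℤ) - s * q 1 ≤ -s - 1 := by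
        have := lt_of_le_of_ne h3 hc
        linarith
      nlinarith
  have key2 := special_lead a b h (fun m => N * (t * m 0 - s * m 1) + 1 * m 1) (hWadd 1)
    p q ((mA p).1 hp) ((mB q).1 hq) (fun m hm hne => hpmax m ((mA m).2 hm) hne)
    (fun m hm hne => hqmax m ((mB m).2 hm) hne)
    (by
      intro hc
      have h1 : t * ((p 0 : ℤ) * q 1 - p 1 * q 0) = t * q 1 + s * p 1 := by
        linear_combination (q 1 : ℤ) * hpw.1 - (p 1 : ℤ) * hqw.1
      rw [hc, mul_zero] at h1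
      have h2 := hpw.2
      have h3 := hqw.2
      have h4 : 0 < t * (q 1 : ℤ) := mul_pos ht0 (by linarith)
      have h5 : 0 ≤ s * (p 1 : ℤ) := mul_nonneg hs0 (by linarith)
      linarith)
  have h7 := DFunLike.congr_fun key2 1
  rw [Finsupp.add_apply, sum1] at h7
  have h8 := hpw.2
  have h9 := hqw.2
  omega

end Pool.Agent.L5helper13.KM
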